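import Pool.Agent.H474.MS.Stm

/-!
# Project MS (helper474), task L3: dominated convergence
-/

set_option autoImplicit false

open MeasureTheory Filter Topology Set

namespace Pool.Agent.H332.MS.L3

open Pool.Agent.H474.MS

theorem summ {ι : Type} {w g : ι → ℝ} (h : Dat w g) (T : ℝ) :
    Summable fun i => if T < g i then w i else 0 := by
  refine Summable.of_nonneg_of_le (fun i => ?_) (fun i => ?_) h.ws
  · split_ifs
    · exact h.w0 i
    · exact le_rfl
  · split_ifs
    · exact le_rfl
    · exact h.w0 i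

theorem rr_nonneg {ι : Type} {w g : ι → ℝ} (h : Dat w g) (T : ℝ) : 0 ≤ RR w g T := by
  refine tsum_nonneg fun i => ?_
  split_ifs
  · exact h.w0 i
  · exact le_rfl

theorem rr_le {ι : Type} {w g : ι → ℝ} (h : Dat w g) (T : ℝ) : RR w g T ≤ ∑' i, w i := by
  refine (summ h T).tsum_le_tsum (fun i => ?_) h.ws
  split_ifs
  · exact le_rfl
  · exact h.w0 i

theorem rr_anti {ι : Type} {w g : ι → ℝ} (h : Dat w g) : Antitone (RR w g) := by
  intro S T hST
  refine (summ h T).tsum_le_tsum (fun i => ?_) (summ h S)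
  by_cases h1 : T < g i
  · rw [if_pos h1, if_pos (lt_of_le_of_lt hST h1)]
  · rw [if_neg h1]
    split_ifs
    · exact h.w0 i
    · exact le_rfl

theorem bound {ι : Type} {w g : ι → ℝ} (h : Dat w g) {α : ℝ}
    (hα : Tendsto (fun T => T * RR w g T) atTop (𝓝 α)) :
    ∃ C : ℝ, ∀ u : ℝ, 0 < u → u * RR w g u ≤ C := by
  have h1 : ∀ᶠ T in atTop, T * RR w g T < α + 1 := hα.eventually (gt_mem_nhds (by linarith))
  obtain ⟨T0, hT0⟩ := eventually_atTop.1 h1
  have hW : 0 ≤ ∑' i, w i := tsum_nonneg h.w0
  refine ⟨max (α + 1) (|T0| * ∑' i, w i), fun u hu => ?_⟩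
  rcases le_total T0 u with h2 | h2
  · exact (hT0 u h2).le.trans (le_max_left _ _)
  · refine le_trans ?_ (le_max_right _ _)
    exact mul_le_mul (h2.trans (le_abs_self _)) (rr_le h u) (rr_nonneg h u) (abs_nonneg _)

theorem t_L3 : Pool.Agent.H474.MS.S_L3 := by
  intro ι _ w g h α hα R hR
  obtain ⟨C, hC⟩ := bound h hα
  have e1 : ∀ h' : ℝ, (∫ s in (0 : ℝ)..R, 2 * Real.sin s * RR w g (s / h')) / h' =
      ∫ s in (0 : ℝ)..R, (2 * Real.sin s * RR w g (s / h')) / h' := by
    intro h'
    rw [intervalIntegral.integral_div]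
  simp only [e1]
  rw [← intervalIntegral.integral_const_mul]
  refine intervalIntegral.tendsto_integral_filter_of_dominated_convergence (fun _ => 2 * C)
    ?_ ?_ ?_ ?_
  · filter_upwards with h'
    refine Measurable.aestronglyMeasurable ?_
    have hm : Measurable fun s : ℝ => RR w g (s / h') :=
      (rr_anti h).measurable.comp (measurable_id.div_const h')
    exact (((measurable_const.mul Real.measurable_sin).mul hm).div_const h')
  · filter_upwards [self_mem_nhdsWithin] with h' hh'
    have hh : 0 < h' := hh'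
    refine ae_of_all _ fun s hs => ?_
    rw [uIoc_of_le hR.le] at hs
    have hs0 : 0 < s := hs.1
    have h3 := hC (s / h') (div_pos hs0 hh)
    have h4 := rr_nonneg h (s / h')
    rw [Real.norm_eq_abs, abs_div, abs_mul, abs_mul, abs_of_pos hh, abs_of_nonneg h4,
      abs_of_pos (by norm_num : (0 : ℝ) < 2)]
    have h5 : |Real.sin s| ≤ s := by
      have := Real.abs_sin_le_abs (x := s)
      rwa [abs_of_pos hs0] at this
    calc 2 * |Real.sin s| * RR w g (s / h') / h' ≤ 2 * s * RR w g (s / h') / h' := by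
          gcongr
      _ = 2 * (s / h' * RR w g (s / h')) := by ring
      _ ≤ 2 * C := by linarith
  · exact intervalIntegrable_const
  · refine ae_of_all _ fun s hs => ?_
    rw [uIoc_of_le hR.le] at hs
    have hs0 : 0 < s := hs.1
    have h6 : Tendsto (fun h' : ℝ => s / h') (𝓝[>] 0) atTop := by
      have := (tendsto_inv_nhdsGT_zero (𝕜 := ℝ)).const_mul_atTop hs0
      refine this.congr fun x => ?_
      rw [div_eq_mul_inv]
    have h7 := (hα.comp h6).mul_const (2 * Real.sin s / s)
    refine h7.congr fun h' => ?_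
    show s / h' * RR w g (s / h') * (2 * Real.sin s / s) = _
    have : s ≠ 0 := hs0.ne'
    rw [show s / h' * RR w g (s / h') * (2 * Real.sin s / s) =
      (2 * Real.sin s * RR w g (s / h') / h') * (s / s) by ring, div_self this, mul_one]

end Pool.Agent.H332.MS.L3
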